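import Mathlib

set_option autoImplicit false

namespace Pool.Agent.Q199.Oct

/-- A real normed space is octahedral: for every finite-dimensional subspace `E` and every `ε > 0`
there is a unit vector `y` with `‖x + c y‖ ≥ (1 - ε) (‖x‖ + |c|)` for all `x` in `E` and all real
`c`. -/
def IsOctahedral (Z : Type*) [NormedAddCommGroup Z] [NormedSpace ℝ Z] : Prop :=
  ∀ E : Submodule ℝ Z, FiniteDimensional ℝ E → ∀ ε : ℝ, 0 < ε →
    ∃ y : Z, ‖y‖ = 1 ∧ ∀ x ∈ E, ∀ c : ℝ, (1 - ε) * (‖x‖ + |c|) ≤ ‖x + c • y‖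

end Pool.Agent.Q199.Oct
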