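import Mathlib
import Pool.Agent.Q199.Oct.Defs

set_option autoImplicit false

namespace Pool.Agent.Q199.Oct

open Filter Topology

/-- the real space `ℓ₁` -/
abbrev L1 : Type := lp (fun _ : ℕ => ℝ) 1

lemma l1_split (x : L1) (n : ℕ) :
    ‖x‖ = ‖x - lp.single 1 n (x n)‖ + |x n| := by
  have h := lp.norm_sub_norm_compl_sub_single (E := fun _ : ℕ => ℝ) (p := 1) (by simp) x {n}
  simp only [ENNReal.toReal_one, Real.rpow_one, Finset.sum_singleton] at h
  rw [Real.norm_eq_abs] at h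
  linarith

lemma l1_tendsto (x : L1) : Tendsto (fun n => |x n|) atTop (𝓝 0) := by
  have h := (lp.memℓp x).summable (by simp)
  simp only [ENNReal.toReal_one, Real.rpow_one] at h
  have := h.tendsto_atTop_zero
  exact this

lemma l1_single_norm (n : ℕ) : ‖(lp.single 1 n (1 : ℝ) : L1)‖ = 1 := by
  rw [lp.norm_single (by simp)]; simp

lemma l1_coord_le (x : L1) (n : ℕ) : |x n| ≤ ‖x‖ := by
  have := l1_split x n
  linarith [norm_nonneg (x - lp.single 1 n (x n))]

/-- finite-dimensional subspaces of `ℓ₁` have uniformly small far coordinates -/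
lemma l1_uniform (E : Submodule ℝ L1) [FiniteDimensional ℝ E] {δ : ℝ} (hδ : 0 < δ) :
    ∃ n : ℕ, ∀ x ∈ E, |x n| ≤ δ * ‖x‖ := by
  classical
  have hproper : ProperSpace E := FiniteDimensional.proper_real E
  obtain ⟨t, ht, htf, htc⟩ := (isCompact_sphere (0 : E) 1).finite_cover_balls (half_pos hδ)
  have hN : ∀ z : E, ∃ N : ℕ, ∀ n, N ≤ n → |(z : L1) n| ≤ δ / 2 := by
    intro z
    obtain ⟨N, hN⟩ := Filter.eventually_atTop.1
      ((l1_tendsto (z : L1)).eventually (gt_mem_nhds (half_pos hδ)))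
    exact ⟨N, fun n hn => (hN n hn).le⟩
  choose N hN using hN
  refine ⟨htf.toFinset.sup N, fun x hx => ?_⟩
  by_cases hx0 : x = 0
  · rw [hx0]; simp
  · have hxn : 0 < ‖x‖ := norm_pos_iff.2 hx0
    let e : E := ‖x‖⁻¹ • ⟨x, hx⟩
    have he : e ∈ Metric.sphere (0 : E) 1 := by
      rw [mem_sphere_zero_iff_norm, norm_smul, norm_inv, norm_norm]
      exact inv_mul_cancel₀ hxn.ne'
    obtain ⟨z, hz, hez⟩ := Set.mem_iUnion₂.1 (htc he)
    have h1 : |(z : L1) (htf.toFinset.sup N)| ≤ δ / 2 :=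
      hN z _ (Finset.le_sup (f := N) (htf.mem_toFinset.2 hz))
    have h2 : |(e : L1) (htf.toFinset.sup N) - (z : L1) (htf.toFinset.sup N)| ≤ δ / 2 := by
      have h3 : ‖(e : L1) - (z : L1)‖ < δ / 2 := by
        have := Metric.mem_ball.1 hez
        rwa [dist_eq_norm] at this
      have h4 := l1_coord_le ((e : L1) - (z : L1)) (htf.toFinset.sup N)
      exact h4.trans h3.le
    have h5 : |(e : L1) (htf.toFinset.sup N)| ≤ δ := by
      have := abs_sub_abs_le_abs_sub ((e : L1) (htf.toFinset.sup N))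
        ((z : L1) (htf.toFinset.sup N))
      linarith
    have h6 : (e : L1) (htf.toFinset.sup N) = ‖x‖⁻¹ * x (htf.toFinset.sup N) := rfl
    rw [h6, abs_mul, abs_of_nonneg (by positivity : (0 : ℝ) ≤ ‖x‖⁻¹)] at h5
    rwa [inv_mul_le_iff₀ hxn, mul_comm] at h5

theorem l1_octahedral : IsOctahedral L1 := by
  intro E hE ε hε
  obtain ⟨n, hn⟩ := l1_uniform E (half_pos hε)
  refine ⟨lp.single 1 n 1, l1_single_norm n, fun x hx c => ?_⟩
  have h1 := l1_split (x + c • lp.single 1 n (1 : ℝ)) n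
  have h2 : (x + c • lp.single 1 n (1 : ℝ) : L1) n = x n + c := by
    simp
  have h3 : (x + c • lp.single 1 n (1 : ℝ) : L1) - lp.single 1 n (x n + c) =
      x - lp.single 1 n (x n) := by
    ext k
    by_cases hk : k = n
    · subst hk; simp
    · simp [hk, lp.single_apply]
  rw [h2, h3] at h1
  have h4 := l1_split x n
  have h5 := hn x hx
  have h6 : |c| - |x n| ≤ |x n + c| := by
    have := abs_sub_abs_le_abs_sub (x n + c) (x n)
    have h7 := abs_sub_abs_le_abs_sub c (-(x n))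
    rw [abs_neg, sub_neg_eq_add, add_comm c] at h7
    exact h7
  rw [h1]
  nlinarith [abs_nonneg c]

/-- `W ⊕_∞ W` is octahedral if `W` is. -/
theorem prod_octahedral {W : Type*} [NormedAddCommGroup W] [NormedSpace ℝ W]
    (hW : IsOctahedral W) : IsOctahedral (W × W) := by
  intro E hE ε hε
  let E' : Submodule ℝ W := E.map (LinearMap.fst ℝ W W) ⊔ E.map (LinearMap.snd ℝ W W)
  obtain ⟨y, hy, hy'⟩ := hW E' inferInstance ε hε
  refine ⟨(y, y), ?_, ?_⟩
  · rw [Prod.norm_def]; simp [hy]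
  · rintro ⟨a, b⟩ hab c
    have ha : a ∈ E' := Submodule.mem_sup_left ⟨(a, b), hab, rfl⟩
    have hb : b ∈ E' := Submodule.mem_sup_right ⟨(a, b), hab, rfl⟩
    have h1 := hy' a ha c
    have h2 := hy' b hb c
    have h3 : ‖(a, b) + c • (y, y)‖ = max ‖a + c • y‖ ‖b + c • y‖ := rfl
    have h4 : ‖(a, b)‖ = max ‖a‖ ‖b‖ := rfl
    rw [h3, h4]
    rcases le_total ‖a‖ ‖b‖ with h | h
    · rw [max_eq_right h]; exact h2.trans (le_max_right _ _)
    · rw [max_eq_left h]; exact h1.trans (le_max_left _ _)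

end Pool.Agent.Q199.Oct
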