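import Mathlib
import Pool.Agent.H130R4.DADefs

set_option autoImplicit false

namespace Pool.Agent.Q199.Oct

open Pool.Agent.H130R4.DA
open scoped TensorProduct

variable {X Y : Type*} [NormedAddCommGroup X] [NormedSpace ℝ X] [NormedAddCommGroup Y]
  [NormedSpace ℝ Y]

/-- the elementary tensor in the completed projective tensor product -/
noncomputable def tp (x : X) (y : Y) : ProjectiveTensorProduct ℝ X Y :=
  ((ProjTensor.tmul ℝ x y : ProjTensor ℝ X Y) : ProjectiveTensorProduct ℝ X Y)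

lemma tp_add_left (x x' : X) (y : Y) : tp (x + x') y = tp x y + tp x' y := by
  have h : ProjTensor.tmul ℝ (x + x') y = ProjTensor.tmul ℝ x y + ProjTensor.tmul ℝ x' y :=
    TensorProduct.add_tmul x x' y
  unfold tp
  rw [h]
  exact UniformSpace.Completion.coe_add _ _

lemma tp_add_right (x : X) (y y' : Y) : tp x (y + y') = tp x y + tp x y' := by
  have h : ProjTensor.tmul ℝ x (y + y') = ProjTensor.tmul ℝ x y + ProjTensor.tmul ℝ x y' :=
    TensorProduct.tmul_add x y y'
  unfold tp
  rw [h]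
  exact UniformSpace.Completion.coe_add _ _

lemma tp_smul_left (c : ℝ) (x : X) (y : Y) : tp (c • x) y = c • tp x y := by
  have h : ProjTensor.tmul ℝ (c • x) y = c • ProjTensor.tmul ℝ x y :=
    TensorProduct.smul_tmul' c x y
  unfold tp
  rw [h]
  exact UniformSpace.Completion.coe_smul _ _

lemma tp_smul_right (c : ℝ) (x : X) (y : Y) : tp x (c • y) = c • tp x y := by
  have h : ProjTensor.tmul ℝ x (c • y) = c • ProjTensor.tmul ℝ x y :=
    TensorProduct.tmul_smul c x y
  unfold tp
  rw [h]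
  exact UniformSpace.Completion.coe_smul _ _

lemma tp_norm_le (x : X) (y : Y) : ‖tp x y‖ ≤ ‖x‖ * ‖y‖ := by
  unfold tp
  rw [UniformSpace.Completion.norm_coe, ProjTensor.norm_def]
  refine csInf_le (ProjTensor.bddBelow_repSums _) ⟨1, fun _ => x, fun _ => y, by simp, by simp⟩

/-- A bounded functional is bounded by its values on the elementary tensors. -/
lemma functional_bound (G : ProjectiveTensorProduct ℝ X Y →L[ℝ] ℝ) {C : ℝ} (hC : 0 ≤ C)
    (h : ∀ x y, |G (tp x y)| ≤ C * (‖x‖ * ‖y‖)) (z : ProjectiveTensorProduct ℝ X Y) :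
    |G z| ≤ C * ‖z‖ := by
  induction z using UniformSpace.Completion.induction_on with
  | hp => exact isClosed_le (G.continuous.abs) (continuous_const.mul continuous_norm)
  | ih t =>
    rw [UniformSpace.Completion.norm_coe, ProjTensor.norm_def]
    -- through all representations
    have key : ∀ r ∈ t.repSums, |G (t : ProjectiveTensorProduct ℝ X Y)| ≤ C * r := by
      rintro r ⟨n, x, y, hxy, rfl⟩
      have h1 : (t : ProjectiveTensorProduct ℝ X Y) = ∑ i, tp (x i) (y i) := by
        rw [hxy]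
        unfold tp
        exact map_sum (UniformSpace.Completion.toCompl : ProjTensor ℝ X Y →+
          UniformSpace.Completion (ProjTensor ℝ X Y)) _ _
      rw [h1, map_sum]
      calc |∑ i, G (tp (x i) (y i))| ≤ ∑ i, |G (tp (x i) (y i))| := Finset.abs_sum_le_sum_abs _ _
        _ ≤ ∑ i, C * (‖x i‖ * ‖y i‖) := Finset.sum_le_sum fun i _ => h _ _
        _ = C * ∑ i, ‖x i‖ * ‖y i‖ := by rw [Finset.mul_sum]
    refine le_of_forall_pos_le_add fun ε hε => ?_
    obtain ⟨r, hr, hr'⟩ := exists_lt_of_csInf_lt t.repSums_nonempty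
      (show sInf t.repSums < t.projNorm + ε / (C + 1) by
        have : t.projNorm = sInf t.repSums := rfl
        have : 0 < ε / (C + 1) := by positivity
        linarith)
    have h2 := key r hr
    have h3 : C * (ε / (C + 1)) ≤ ε := by
      rw [mul_div_assoc', div_le_iff₀ (by positivity)]
      nlinarith
    nlinarith

/-- lower bound for the norm through a bilinear form -/
lemma norm_lower (B : X →ₗ[ℝ] Y →ₗ[ℝ] ℝ) (hB : ∀ x y, |B x y| ≤ ‖x‖ * ‖y‖)
    {n : ℕ} (x : Fin n → X) (y : Fin n → Y) : ∑ i, B (x i) (y i) ≤ ‖∑ i, tp (x i) (y i)‖ := by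
  have h1 : ∑ i, tp (x i) (y i) =
      ((∑ i, ProjTensor.tmul ℝ (x i) (y i) : ProjTensor ℝ X Y) :
        ProjectiveTensorProduct ℝ X Y) := by
    unfold tp
    exact (map_sum (UniformSpace.Completion.toCompl : ProjTensor ℝ X Y →+
      UniformSpace.Completion (ProjTensor ℝ X Y)) _ _).symm
  rw [h1, UniformSpace.Completion.norm_coe, ProjTensor.norm_def]
  refine le_csInf (ProjTensor.repSums_nonempty _) ?_
  rintro r ⟨m, x', y', hxy, rfl⟩
  let L : X ⊗[ℝ] Y →ₗ[ℝ] ℝ := TensorProduct.lift B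
  have hL : ∀ (k : ℕ) (a : Fin k → X) (b : Fin k → Y),
      L (∑ i, (a i) ⊗ₜ[ℝ] (b i)) = ∑ i, B (a i) (b i) := by
    intro k a b
    rw [map_sum]
    exact Finset.sum_congr rfl fun i _ => TensorProduct.lift.tmul _ _
  have h2 : (∑ i, (x i) ⊗ₜ[ℝ] (y i) : X ⊗[ℝ] Y) = ∑ i, (x' i) ⊗ₜ[ℝ] (y' i) := hxy
  have h3 : ∑ i, B (x i) (y i) = ∑ i, B (x' i) (y' i) := by rw [← hL, h2, hL]
  rw [h3]
  exact Finset.sum_le_sum fun i _ => (le_abs_self _).trans (hB _ _)

end Pool.Agent.Q199.Oct
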