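import Mathlib

set_option autoImplicit false

namespace Pool.Agent.Q199.Oct

/-- The four-dimensional space `ℝ⁴` to be normed by
`max (|a| + |b|) (|c| + |d|) ((2/3) (|a| + |b| + |c| + |d|))`. -/
def Y4 : Type := Fin 4 → ℝ

instance : AddCommGroup Y4 := inferInstanceAs (AddCommGroup (Fin 4 → ℝ))
instance : Module ℝ Y4 := inferInstanceAs (Module ℝ (Fin 4 → ℝ))
instance : FiniteDimensional ℝ Y4 := inferInstanceAs (FiniteDimensional ℝ (Fin 4 → ℝ))

/-- the first half-norm -/
def nA (y : Y4) : ℝ := |y 0| + |y 1|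
/-- the second half-norm -/
def nB (y : Y4) : ℝ := |y 2| + |y 3|
/-- the norm -/
noncomputable def nY (y : Y4) : ℝ := max (max (nA y) (nB y)) ((2 / 3) * (nA y + nB y))

lemma nA_nonneg (y : Y4) : 0 ≤ nA y := by unfold nA; positivity
lemma nB_nonneg (y : Y4) : 0 ≤ nB y := by unfold nB; positivity
lemma nY_nonneg (y : Y4) : 0 ≤ nY y := ((nA_nonneg y).trans (le_max_left _ _)).trans (le_max_left _ _)

lemma nA_add (x y : Y4) : nA (x + y) ≤ nA x + nA y := by
  have h0 := abs_add_le (x 0) (y 0)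
  have h1 := abs_add_le (x 1) (y 1)
  show |x 0 + y 0| + |x 1 + y 1| ≤ (|x 0| + |x 1|) + (|y 0| + |y 1|)
  linarith

lemma nB_add (x y : Y4) : nB (x + y) ≤ nB x + nB y := by
  have h0 := abs_add_le (x 2) (y 2)
  have h1 := abs_add_le (x 3) (y 3)
  show |x 2 + y 2| + |x 3 + y 3| ≤ (|x 2| + |x 3|) + (|y 2| + |y 3|)
  linarith

lemma nA_smul (c : ℝ) (y : Y4) : nA (c • y) = |c| * nA y := by
  show |c * y 0| + |c * y 1| = |c| * (|y 0| + |y 1|)
  rw [abs_mul, abs_mul]; ring

lemma nB_smul (c : ℝ) (y : Y4) : nB (c • y) = |c| * nB y := by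
  show |c * y 2| + |c * y 3| = |c| * (|y 2| + |y 3|)
  rw [abs_mul, abs_mul]; ring

lemma nY_le {y : Y4} {C : ℝ} : nY y ≤ C ↔ nA y ≤ C ∧ nB y ≤ C ∧ (2 / 3) * (nA y + nB y) ≤ C := by
  unfold nY; rw [max_le_iff, max_le_iff, and_assoc]

lemma nA_le (y : Y4) : nA y ≤ nY y := (nY_le.1 le_rfl).1
lemma nB_le (y : Y4) : nB y ≤ nY y := (nY_le.1 le_rfl).2.1
lemma nAB_le (y : Y4) : (2 / 3) * (nA y + nB y) ≤ nY y := (nY_le.1 le_rfl).2.2

noncomputable instance : Norm Y4 := ⟨nY⟩

lemma norm_eq (y : Y4) : ‖y‖ = nY y := rfl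

lemma nY_core : NormedSpace.Core ℝ Y4 where
  norm_nonneg := nY_nonneg
  norm_smul := by
    intro c y
    show nY (c • y) = |c| * nY y
    unfold nY
    rw [nA_smul, nB_smul, mul_max_of_nonneg _ _ (abs_nonneg c),
      mul_max_of_nonneg _ _ (abs_nonneg c)]
    congr 1; ring
  norm_triangle := by
    intro x y
    refine nY_le.2 ⟨?_, ?_, ?_⟩
    · exact (nA_add x y).trans (add_le_add (nA_le x) (nA_le y))
    · exact (nB_add x y).trans (add_le_add (nB_le x) (nB_le y))
    · have := nAB_le x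
      have := nAB_le y
      have := nA_add x y
      have := nB_add x y
      show (2 / 3) * (nA (x + y) + nB (x + y)) ≤ nY x + nY y
      linarith
  norm_eq_zero_iff := by
    intro y
    constructor
    · intro h
      have h' : nY y = 0 := h
      have hA : nA y ≤ 0 := h' ▸ nA_le y
      have hB : nB y ≤ 0 := h' ▸ nB_le y
      unfold nA at hA
      unfold nB at hB
      have h0 : y 0 = 0 := abs_nonpos_iff.1 (by linarith [abs_nonneg (y 1)])
      have h1 : y 1 = 0 := abs_nonpos_iff.1 (by linarith [abs_nonneg (y 0)])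
      have h2 : y 2 = 0 := abs_nonpos_iff.1 (by linarith [abs_nonneg (y 3)])
      have h3 : y 3 = 0 := abs_nonpos_iff.1 (by linarith [abs_nonneg (y 2)])
      funext i
      fin_cases i
      · exact h0
      · exact h1
      · exact h2
      · exact h3
    · rintro rfl
      show nY 0 = 0
      have : nA (0 : Y4) = 0 := by show |(0 : ℝ)| + |(0 : ℝ)| = 0; simp
      have : nB (0 : Y4) = 0 := by show |(0 : ℝ)| + |(0 : ℝ)| = 0; simp
      unfold nY
      simp [*]

noncomputable instance : NormedAddCommGroup Y4 := NormedAddCommGroup.ofCore nY_core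
noncomputable instance : NormedSpace ℝ Y4 := NormedSpace.ofCore nY_core
noncomputable instance : CompleteSpace Y4 := FiniteDimensional.complete ℝ Y4

lemma norm_eq' (y : Y4) : ‖y‖ = nY y := rfl

/-- a vector of `Y4` -/
def yv (a b c d : ℝ) : Y4 := ![a, b, c, d]

lemma yv_nA (a b c d : ℝ) : nA (yv a b c d) = |a| + |b| := rfl
lemma yv_nB (a b c d : ℝ) : nB (yv a b c d) = |c| + |d| := rfl

lemma yv_norm_le {a b c d C : ℝ} (h1 : |a| + |b| ≤ C) (h2 : |c| + |d| ≤ C)
    (h3 : (2 / 3) * ((|a| + |b|) + (|c| + |d|)) ≤ C) : ‖yv a b c d‖ ≤ C := by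
  rw [norm_eq', nY_le, yv_nA, yv_nB]
  exact ⟨h1, h2, h3⟩

lemma yv_add (a b c d a' b' c' d' : ℝ) :
    yv a b c d + yv a' b' c' d' = yv (a + a') (b + b') (c + c') (d + d') := by
  funext i; fin_cases i <;> rfl

lemma yv_smul (t a b c d : ℝ) : t • yv a b c d = yv (t * a) (t * b) (t * c) (t * d) := by
  funext i; fin_cases i <;> rfl

lemma yv_eta (y : Y4) : yv (y 0) (y 1) (y 2) (y 3) = y := by
  funext i; fin_cases i <;> rfl

end Pool.Agent.Q199.Oct
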