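import Mathlib
import Pool.Agent.Q199.Oct.Defs
import Pool.Agent.Q199.Oct.Proj
import Pool.Agent.Q199.Oct.YFour

set_option autoImplicit false

namespace Pool.Agent.Q199.Oct

open Pool.Agent.H130R4.DA

variable {W : Type*} [NormedAddCommGroup W] [NormedSpace ℝ W]

lemma tp_sub_left {X Y : Type*} [NormedAddCommGroup X] [NormedSpace ℝ X] [NormedAddCommGroup Y]
    [NormedSpace ℝ Y] (x x' : X) (y : Y) : tp (x - x') y = tp x y - tp x' y := by
  rw [eq_sub_iff_add_eq, ← tp_add_left, sub_add_cancel]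

lemma tp_sub_right {X Y : Type*} [NormedAddCommGroup X] [NormedSpace ℝ X] [NormedAddCommGroup Y]
    [NormedSpace ℝ Y] (x : X) (y y' : Y) : tp x (y - y') = tp x y - tp x y' := by
  rw [eq_sub_iff_add_eq, ← tp_add_right, sub_add_cancel]

/-- averaging: a contractive form close to `1` at `(x, p)` is small at `(h, q)` -/
lemma kill_aux {X Y : Type*} [NormedAddCommGroup X] [NormedSpace ℝ X] [NormedAddCommGroup Y]
    [NormedSpace ℝ Y] (F : ProjectiveTensorProduct ℝ X Y →L[ℝ] ℝ) (hF : ∀ z, |F z| ≤ ‖z‖)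
    (x h : X) (p q : Y) (h1 : ‖x + h‖ ≤ 1) (h2 : ‖x - h‖ ≤ 1) (h3 : ‖p + q‖ ≤ 1)
    (h4 : ‖p - q‖ ≤ 1) {η : ℝ} (hη : 1 - η ≤ F (tp x p)) : |F (tp h q)| ≤ η := by
  have hle : ∀ (a : X) (b : Y), ‖a‖ ≤ 1 → ‖b‖ ≤ 1 → F (tp a b) ≤ 1 := by
    intro a b ha hb
    calc F (tp a b) ≤ ‖tp a b‖ := (le_abs_self _).trans (hF _)
      _ ≤ ‖a‖ * ‖b‖ := tp_norm_le _ _
      _ ≤ 1 * 1 := mul_le_mul ha hb (norm_nonneg _) zero_le_one
      _ = 1 := one_mul 1
  have e1 := hle _ _ h1 h3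
  have e2 := hle _ _ h2 h4
  have e3 := hle _ _ h1 h4
  have e4 := hle _ _ h2 h3
  simp only [tp_add_left, tp_add_right, tp_sub_left, tp_sub_right, map_add, map_sub] at e1 e2 e3 e4
  rw [abs_le]
  constructor <;> linarith

/-- the bound for a form which is nearly extremal at `x₁ ⊗ p` and `x₂ ⊗ p'` -/
lemma kill (F : ProjectiveTensorProduct ℝ (W × W) Y4 →L[ℝ] ℝ) (hF : ∀ z, |F z| ≤ ‖z‖)
    (w : W) (hw : ‖w‖ = 1) (p p' q : Y4) (h1 : ‖p + q‖ ≤ 1) (h2 : ‖p - q‖ ≤ 1)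
    (h3 : ‖p' + q‖ ≤ 1) (h4 : ‖p' - q‖ ≤ 1) {η : ℝ} (hη : 1 - η ≤ F (tp (w, 0) p))
    (hη' : 1 - η ≤ F (tp (0, w) p')) (x : W × W) (hx : ‖x‖ ≤ 1) : |F (tp x q)| ≤ 2 * η := by
  obtain ⟨a, b⟩ := x
  have ha : ‖a‖ ≤ 1 := (norm_fst_le (a, b)).trans hx
  have hb : ‖b‖ ≤ 1 := (norm_snd_le (a, b)).trans hx
  have hsplit : ((a, b) : W × W) = (0, b) + (a, 0) := by simp
  have k1 : |F (tp ((0, b) : W × W) q)| ≤ η := by
    refine kill_aux F hF (w, 0) (0, b) p q ?_ ?_ h1 h2 hη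
    · rw [Prod.norm_def]; simp [hw, hb]
    · rw [Prod.norm_def]; simp [hw, hb]
  have k2 : |F (tp ((a, 0) : W × W) q)| ≤ η := by
    refine kill_aux F hF (0, w) (a, 0) p' q ?_ ?_ h3 h4 hη'
    · rw [Prod.norm_def]; simp [hw, ha]
    · rw [Prod.norm_def]; simp [hw, ha]
  rw [hsplit, tp_add_left, map_add]
  refine (abs_add_le _ _).trans ?_
  linarith

/-- homogeneous version -/
lemma kill_homog (F : ProjectiveTensorProduct ℝ (W × W) Y4 →L[ℝ] ℝ) {η : ℝ} (hη : 0 ≤ η)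
    (q : ℝ → ℝ → Y4) (hq : ∀ t c d, q (t * c) (t * d) = t • q c d)
    (h : ∀ c d, |c| + |d| ≤ 1 / 2 → ∀ x : W × W, ‖x‖ ≤ 1 → |F (tp x (q c d))| ≤ 2 * η)
    (x : W × W) (c d : ℝ) : |F (tp x (q c d))| ≤ 4 * η * (‖x‖ * (|c| + |d|)) := by
  have hzero : q 0 0 = 0 := by
    have := hq 0 0 0
    simpa using this
  by_cases hx : x = 0
  · have : tp x (q c d) = 0 := by
      rw [hx, show (0 : W × W) = (0 : ℝ) • (0 : W × W) by simp, tp_smul_left, zero_smul]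
    rw [this, map_zero, abs_zero]; positivity
  by_cases hcd : |c| + |d| = 0
  · have hc : c = 0 := abs_nonpos_iff.1 (by linarith [abs_nonneg d])
    have hd : d = 0 := abs_nonpos_iff.1 (by linarith [abs_nonneg c])
    have : tp x (q c d) = 0 := by
      rw [hc, hd, hzero, show (0 : Y4) = (0 : ℝ) • (0 : Y4) by simp, tp_smul_right, zero_smul]
    rw [this, map_zero, abs_zero]; positivity
  have hxn : 0 < ‖x‖ := norm_pos_iff.2 hx
  have hs : 0 < |c| + |d| := lt_of_le_of_ne (by positivity) (Ne.symm hcd)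
  obtain ⟨s, hsdef⟩ : ∃ s, s = |c| + |d| := ⟨_, rfl⟩
  rw [← hsdef] at hs ⊢
  have h1 := h ((1 / (2 * s)) * c) ((1 / (2 * s)) * d) (by
    rw [abs_mul, abs_mul, abs_of_pos (by positivity), ← mul_add, ← hsdef]
    field_simp
    exact le_rfl) (‖x‖⁻¹ • x) (by
      rw [norm_smul, norm_inv, norm_norm, inv_mul_cancel₀ hxn.ne'])
  rw [hq, tp_smul_left, tp_smul_right, map_smul, map_smul, smul_eq_mul, smul_eq_mul, abs_mul,
    abs_mul, abs_of_pos (by positivity : (0 : ℝ) < ‖x‖⁻¹),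
    abs_of_pos (by positivity : (0 : ℝ) < 1 / (2 * s))] at h1
  have h2 : |F (tp x (q c d))| = (2 * s) * ‖x‖ * (‖x‖⁻¹ * (1 / (2 * s) * |F (tp x (q c d))|)) := by
    field_simp
  rw [h2]
  calc (2 * s) * ‖x‖ * (‖x‖⁻¹ * (1 / (2 * s) * |F (tp x (q c d))|))
      ≤ (2 * s) * ‖x‖ * (2 * η) := mul_le_mul_of_nonneg_left h1 (by positivity)
    _ = 4 * η * (‖x‖ * s) := by ring

/-- The projective tensor product of `W ⊕_∞ W` and `Y4` is not octahedral. -/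
theorem not_octahedral (w : W) (hw : ‖w‖ = 1) :
    ¬ IsOctahedral (ProjectiveTensorProduct ℝ (W × W) Y4) := by
  intro hoct
  obtain ⟨f, hf, hfw⟩ := exists_dual_vector ℝ w (by rw [hw]; exact one_ne_zero)
  have hfw1 : f w = 1 := by rw [hfw, hw]; rfl
  have hfle : ∀ a : W, |f a| ≤ ‖a‖ := by
    intro a
    have := f.le_opNorm a
    rwa [hf, one_mul, Real.norm_eq_abs] at this
  -- the two vectors
  let xs : Fin 2 → W × W := ![((1 / 2 : ℝ)) • (w, 0), ((1 / 2 : ℝ)) • (0, w)]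
  let ys : Fin 2 → Y4 := ![yv 1 0 0 0, yv 0 1 0 0]
  let ys' : Fin 2 → Y4 := ![yv 0 0 1 0, yv 0 0 0 1]
  let z1 : ProjectiveTensorProduct ℝ (W × W) Y4 := ∑ i, tp (xs i) (ys i)
  let z2 : ProjectiveTensorProduct ℝ (W × W) Y4 := ∑ i, tp (xs i) (ys' i)
  have hz1 : 1 ≤ ‖z1‖ := by
    let B : (W × W) →ₗ[ℝ] Y4 →ₗ[ℝ] ℝ := LinearMap.mk₂ ℝ
      (fun x y => f x.1 * y 0 + f x.2 * y 1)
      (by intro a b y; simp only [Prod.fst_add, Prod.snd_add, map_add]; ring)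
      (by intro c a y; simp only [Prod.smul_fst, Prod.smul_snd, map_smul, smul_eq_mul]; ring)
      (by intro a y y'; show f a.1 * (y 0 + y' 0) + f a.2 * (y 1 + y' 1) = _; ring)
      (by intro c a y; show f a.1 * (c * y 0) + f a.2 * (c * y 1) = c * _; ring)
    have hBv : ∀ x y, B x y = f x.1 * y 0 + f x.2 * y 1 := fun _ _ => rfl
    have h := norm_lower B (by
      intro x y
      rw [hBv]
      have h1 : |f x.1| ≤ ‖x‖ := (hfle _).trans (norm_fst_le x)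
      have h2 : |f x.2| ≤ ‖x‖ := (hfle _).trans (norm_snd_le x)
      calc |f x.1 * y 0 + f x.2 * y 1| ≤ |f x.1| * |y 0| + |f x.2| * |y 1| := by
            rw [← abs_mul, ← abs_mul]; exact abs_add_le _ _
        _ ≤ ‖x‖ * |y 0| + ‖x‖ * |y 1| := by gcongr
        _ = ‖x‖ * nA y := by unfold nA; ring
        _ ≤ ‖x‖ * ‖y‖ := mul_le_mul_of_nonneg_left (nA_le y) (norm_nonneg _)) xs ys
    refine le_trans (le_of_eq ?_) h
    rw [Fin.sum_univ_two, hBv, hBv]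
    simp only [xs, ys, Matrix.cons_val_zero, Matrix.cons_val_one, Prod.smul_mk, smul_zero,
      map_smul, map_zero, hfw1, yv]
    simp
    norm_num
  have hz2 : 1 ≤ ‖z2‖ := by
    let B : (W × W) →ₗ[ℝ] Y4 →ₗ[ℝ] ℝ := LinearMap.mk₂ ℝ
      (fun x y => f x.1 * y 2 + f x.2 * y 3)
      (by intro a b y; simp only [Prod.fst_add, Prod.snd_add, map_add]; ring)
      (by intro c a y; simp only [Prod.smul_fst, Prod.smul_snd, map_smul, smul_eq_mul]; ring)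
      (by intro a y y'; show f a.1 * (y 2 + y' 2) + f a.2 * (y 3 + y' 3) = _; ring)
      (by intro c a y; show f a.1 * (c * y 2) + f a.2 * (c * y 3) = c * _; ring)
    have hBv : ∀ x y, B x y = f x.1 * y 2 + f x.2 * y 3 := fun _ _ => rfl
    have h := norm_lower B (by
      intro x y
      rw [hBv]
      have h1 : |f x.1| ≤ ‖x‖ := (hfle _).trans (norm_fst_le x)
      have h2 : |f x.2| ≤ ‖x‖ := (hfle _).trans (norm_snd_le x)
      calc |f x.1 * y 2 + f x.2 * y 3| ≤ |f x.1| * |y 2| + |f x.2| * |y 3| := by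
            rw [← abs_mul, ← abs_mul]; exact abs_add_le _ _
        _ ≤ ‖x‖ * |y 2| + ‖x‖ * |y 3| := by gcongr
        _ = ‖x‖ * nB y := by unfold nB; ring
        _ ≤ ‖x‖ * ‖y‖ := mul_le_mul_of_nonneg_left (nB_le y) (norm_nonneg _)) xs ys'
    refine le_trans (le_of_eq ?_) h
    rw [Fin.sum_univ_two, hBv, hBv]
    simp only [xs, ys', Matrix.cons_val_zero, Matrix.cons_val_one, Prod.smul_mk, smul_zero,
      map_smul, map_zero, hfw1, yv]
    simp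
    norm_num
  obtain ⟨u, hu1, hu⟩ := hoct (Submodule.span ℝ {z1, z2})
    (FiniteDimensional.span_of_finite ℝ (Set.toFinite _)) (1 / 100) (by norm_num)
  -- norming functionals
  have step : ∀ z ∈ Submodule.span ℝ {z1, z2}, 1 ≤ ‖z‖ →
      ∃ F : ProjectiveTensorProduct ℝ (W × W) Y4 →L[ℝ] ℝ, (∀ v, |F v| ≤ ‖v‖) ∧
        99 / 50 ≤ F z + F u := by
    intro z hz hz1
    have h1 := hu z hz 1
    rw [one_smul, abs_one] at h1
    obtain ⟨F, hF, hFz⟩ := exists_dual_vector'' ℝ (z + u)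
    refine ⟨F, fun v => ?_, ?_⟩
    · have := F.le_opNorm v
      rw [Real.norm_eq_abs] at this
      exact this.trans (by
        calc ‖F‖ * ‖v‖ ≤ 1 * ‖v‖ := mul_le_mul_of_nonneg_right hF (norm_nonneg _)
          _ = ‖v‖ := one_mul _)
    · rw [← map_add, hFz]
      show 99 / 50 ≤ ‖z + u‖
      linarith
  obtain ⟨F1, hF1, hF1z⟩ := step z1 (Submodule.subset_span (by simp)) hz1
  obtain ⟨F2, hF2, hF2z⟩ := step z2 (Submodule.subset_span (by simp)) hz2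
  have hF1u : F1 u ≤ 1 := by rw [← hu1]; exact (le_abs_self _).trans (hF1 u)
  have hF2u : F2 u ≤ 1 := by rw [← hu1]; exact (le_abs_self _).trans (hF2 u)
  have hval : ∀ (F : ProjectiveTensorProduct ℝ (W × W) Y4 →L[ℝ] ℝ) (y y' : Y4),
      F (∑ i, tp (xs i) ((![y, y'] : Fin 2 → Y4) i)) =
        (1 / 2) * F (tp (w, 0) y) + (1 / 2) * F (tp (0, w) y') := by
    intro F y y'
    rw [Fin.sum_univ_two, map_add]
    simp only [xs, Matrix.cons_val_zero, Matrix.cons_val_one, tp_smul_left, map_smul, smul_eq_mul]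
  have hunit : ∀ (F : ProjectiveTensorProduct ℝ (W × W) Y4 →L[ℝ] ℝ) (_ : ∀ v, |F v| ≤ ‖v‖)
      (x : W × W) (y : Y4), ‖x‖ ≤ 1 → ‖y‖ ≤ 1 → F (tp x y) ≤ 1 := by
    intro F hF x y hx hy
    calc F (tp x y) ≤ ‖tp x y‖ := (le_abs_self _).trans (hF _)
      _ ≤ ‖x‖ * ‖y‖ := tp_norm_le _ _
      _ ≤ 1 * 1 := mul_le_mul hx hy (norm_nonneg _) zero_le_one
      _ = 1 := one_mul 1
  have hx1 : ‖((w, 0) : W × W)‖ ≤ 1 := by rw [Prod.norm_def]; simp [hw]
  have hx2 : ‖((0, w) : W × W)‖ ≤ 1 := by rw [Prod.norm_def]; simp [hw]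
  have hy1 : ‖yv 1 0 0 0‖ ≤ 1 := yv_norm_le (by norm_num) (by norm_num) (by norm_num)
  have hy2 : ‖yv 0 1 0 0‖ ≤ 1 := yv_norm_le (by norm_num) (by norm_num) (by norm_num)
  have hy3 : ‖yv 0 0 1 0‖ ≤ 1 := yv_norm_le (by norm_num) (by norm_num) (by norm_num)
  have hy4 : ‖yv 0 0 0 1‖ ≤ 1 := yv_norm_le (by norm_num) (by norm_num) (by norm_num)
  have v1 : F1 z1 = (1 / 2) * F1 (tp (w, 0) (yv 1 0 0 0)) + (1 / 2) * F1 (tp (0, w) (yv 0 1 0 0)) :=
    hval F1 _ _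
  have v2 : F2 z2 = (1 / 2) * F2 (tp (w, 0) (yv 0 0 1 0)) + (1 / 2) * F2 (tp (0, w) (yv 0 0 0 1)) :=
    hval F2 _ _
  have a1 := hunit F1 hF1 _ _ hx1 hy1
  have a2 := hunit F1 hF1 _ _ hx2 hy2
  have a3 := hunit F2 hF2 _ _ hx1 hy3
  have a4 := hunit F2 hF2 _ _ hx2 hy4
  -- near extremality
  have b1 : 1 - 1 / 25 ≤ F1 (tp (w, 0) (yv 1 0 0 0)) := by linarith
  have b2 : 1 - 1 / 25 ≤ F1 (tp (0, w) (yv 0 1 0 0)) := by linarith
  have b3 : 1 - 1 / 25 ≤ F2 (tp (w, 0) (yv 0 0 1 0)) := by linarith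
  have b4 : 1 - 1 / 25 ≤ F2 (tp (0, w) (yv 0 0 0 1)) := by linarith
  have subv : ∀ a b c d a' b' c' d' : ℝ, yv a b c d - yv a' b' c' d' =
      yv (a - a') (b - b') (c - c') (d - d') := by
    intro a b c d a' b' c' d'
    funext i; fin_cases i <;> rfl
  have K1 : ∀ (x : W × W) (c d : ℝ), |F1 (tp x (yv 0 0 c d))| ≤
      4 * (1 / 25) * (‖x‖ * (|c| + |d|)) := by
    refine kill_homog F1 (by norm_num) (fun c d => yv 0 0 c d)
      (fun t c d => by rw [yv_smul]; simp) fun c d hcd x hx => ?_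
    refine kill F1 hF1 w hw (yv 1 0 0 0) (yv 0 1 0 0) (yv 0 0 c d) ?_ ?_ ?_ ?_ b1 b2 x hx
    · rw [yv_add]; refine yv_norm_le ?_ ?_ ?_ <;> norm_num <;> linarith
    · rw [subv]; refine yv_norm_le ?_ ?_ ?_ <;> norm_num <;> linarith
    · rw [yv_add]; refine yv_norm_le ?_ ?_ ?_ <;> norm_num <;> linarith
    · rw [subv]; refine yv_norm_le ?_ ?_ ?_ <;> norm_num <;> linarith
  have K2 : ∀ (x : W × W) (a b : ℝ), |F2 (tp x (yv a b 0 0))| ≤
      4 * (1 / 25) * (‖x‖ * (|a| + |b|)) := by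
    refine kill_homog F2 (by norm_num) (fun a b => yv a b 0 0)
      (fun t c d => by rw [yv_smul]; simp) fun c d hcd x hx => ?_
    refine kill F2 hF2 w hw (yv 0 0 1 0) (yv 0 0 0 1) (yv c d 0 0) ?_ ?_ ?_ ?_ b3 b4 x hx
    · rw [yv_add]; refine yv_norm_le ?_ ?_ ?_ <;> norm_num <;> linarith
    · rw [subv]; refine yv_norm_le ?_ ?_ ?_ <;> norm_num <;> linarith
    · rw [yv_add]; refine yv_norm_le ?_ ?_ ?_ <;> norm_num <;> linarith
    · rw [subv]; refine yv_norm_le ?_ ?_ ?_ <;> norm_num <;> linarith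
  have D1 : ∀ (x : W × W) (a b : ℝ), |F1 (tp x (yv a b 0 0))| ≤ ‖x‖ * (|a| + |b|) := by
    intro x a b
    refine ((hF1 _).trans (tp_norm_le _ _)).trans (mul_le_mul_of_nonneg_left ?_ (norm_nonneg _))
    have := abs_nonneg a
    have := abs_nonneg b
    refine yv_norm_le le_rfl ?_ ?_ <;> simp <;> linarith
  have D2 : ∀ (x : W × W) (c d : ℝ), |F2 (tp x (yv 0 0 c d))| ≤ ‖x‖ * (|c| + |d|) := by
    intro x c d
    refine ((hF2 _).trans (tp_norm_le _ _)).trans (mul_le_mul_of_nonneg_left ?_ (norm_nonneg _))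
    have := abs_nonneg c
    have := abs_nonneg d
    refine yv_norm_le ?_ le_rfl ?_ <;> simp <;> linarith
  have hG : ∀ (x : W × W) (y : Y4), |(F1 + F2) (tp x y)| ≤ (87 / 50) * (‖x‖ * ‖y‖) := by
    intro x y
    have hy : y = yv (y 0) (y 1) 0 0 + yv 0 0 (y 2) (y 3) := by
      rw [yv_add]; simp [yv_eta]
    have hsum : (F1 + F2) (tp x y) = (F1 (tp x (yv (y 0) (y 1) 0 0)) +
        F1 (tp x (yv 0 0 (y 2) (y 3)))) + (F2 (tp x (yv (y 0) (y 1) 0 0)) +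
        F2 (tp x (yv 0 0 (y 2) (y 3)))) := by
      conv_lhs => rw [hy]
      rw [tp_add_right, add_apply, map_add, map_add]
    have d1 := D1 x (y 0) (y 1)
    have d2 := D2 x (y 2) (y 3)
    have k1 := K1 x (y 2) (y 3)
    have k2 := K2 x (y 0) (y 1)
    have hn : (2 / 3) * (nA y + nB y) ≤ ‖y‖ := nAB_le y
    have hnA : nA y = |y 0| + |y 1| := rfl
    have hnB : nB y = |y 2| + |y 3| := rfl
    rw [← hnA] at d1 k2
    rw [← hnB] at d2 k1
    have hsumle : |(F1 + F2) (tp x y)| ≤ (1 + 4 * (1 / 25)) * (‖x‖ * (nA y + nB y)) := by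
      rw [hsum]
      have t1 := abs_add_le (F1 (tp x (yv (y 0) (y 1) 0 0)) + F1 (tp x (yv 0 0 (y 2) (y 3))))
        (F2 (tp x (yv (y 0) (y 1) 0 0)) + F2 (tp x (yv 0 0 (y 2) (y 3))))
      have t2 := abs_add_le (F1 (tp x (yv (y 0) (y 1) 0 0))) (F1 (tp x (yv 0 0 (y 2) (y 3))))
      have t3 := abs_add_le (F2 (tp x (yv (y 0) (y 1) 0 0))) (F2 (tp x (yv 0 0 (y 2) (y 3))))
      linarith
    have h5 : ‖x‖ * (nA y + nB y) ≤ ‖x‖ * ((3 / 2) * ‖y‖) :=
      mul_le_mul_of_nonneg_left (by linarith) (norm_nonneg _)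
    linarith
  have hfin := functional_bound (F1 + F2) (by norm_num) hG u
  rw [hu1, mul_one, add_apply] at hfin
  have hfin2 := (le_abs_self _).trans hfin
  linarith

end Pool.Agent.Q199.Oct
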